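import Pool.Agent.T2h53.Sq.Core3
import Pool.Agent.T2h7.Csp.CorA
import Pool.Agent.T2h7.Csp.CorC
import Pool.Agent.T2h53.Sq.LFTC

/-! Inscribed squares in Jordan curves with cusps: Stromquist's theorem (locally monotone curves),
Tao's theorem (two Lipschitz graphs with a constant less than `1`) and the theorem for curves of
finite total curvature are special cases of one pointwise criterion, and cusps are allowed.

Method: the connected families of isosceles right triangles and their labels of `Pool.Agent.N335.Hg`
(starting library); new: the labels near a cusp, and, by Tao's conserved integral, a square-free cusp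
has no small triangles with the fourth vertex of the square between the branches. Joint work of the
seats helper53, helper7 (total curvature, one-sided tangents and cones), helper21 and helper30. -/

set_option autoImplicit false

namespace Pool.Agent.Results.MP_5a3ebe_gt.CuspsAllowed

open Classical in
/-- The signed distance of `z` to the closed curve `c` (of period `1`): the distance of `z` to the
curve if the curve winds an odd number `n` of times around `z` (there is a continuous logarithm `k`
of `c - z` with `k 1 - k 0 = 2 π n i`), and minus the distance otherwise. -/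
noncomputable def sdist (c : ℝ → ℂ) (z : ℂ) : ℝ :=
  if ∃ n : ℤ, (∃ k : ℝ → ℂ, Continuous k ∧ (∀ t, Complex.exp (k t) = c t - z) ∧
      k 1 - k 0 = n * (2 * Real.pi * Complex.I)) ∧ Odd n
  then Metric.infDist z (Set.range c) else -Metric.infDist z (Set.range c)

/-- The curve `c` contains the four vertices of a square. -/
def HasSquare (c : ℝ → ℂ) : Prop :=
  ∃ z w : ℂ, w ≠ 0 ∧ z ∈ Set.range c ∧ z + w ∈ Set.range c ∧
    z + w + Complex.I * w ∈ Set.range c ∧ z + Complex.I * w ∈ Set.range c

/-- The curve is locally monotone at the parameter `t` (Stromquist): near `t` the scalar product of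
the curve with a fixed vector is strictly increasing. -/
def LocallyMonotone (c : ℝ → ℂ) (t : ℝ) : Prop := ∃ ρ > 0, ∃ w : ℂ, ∀ x y : ℝ,
  |x - t| < ρ → |y - t| < ρ → x < y → 0 < (w * (c y - c x)).re

/-- At the parameter `t` the curve has a derivative `v ≠ 0` (nothing is supposed about the
derivatives at other parameters). -/
def Differentiable₀ (c : ℝ → ℂ) (t : ℝ) : Prop := ∃ v : ℂ, v ≠ 0 ∧ HasDerivAt c v t

/-- The curve has one-sided tangents in different directions at the parameter `t`: the unit vectors
from `c t` to `c s` converge for `s → t` from the left and from the right, and the two limits are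
different. Nothing is supposed about the tangents at other points. -/
def Tangents (c : ℝ → ℂ) (t : ℝ) : Prop := ∃ u v : ℂ, ‖u‖ = 1 ∧ ‖v‖ = 1 ∧ u ≠ v ∧
  Filter.Tendsto (fun s => (c s - c t) / (‖c s - c t‖ : ℂ)) (nhdsWithin t (Set.Iio t)) (nhds u) ∧
  Filter.Tendsto (fun s => (c s - c t) / (‖c s - c t‖ : ℂ)) (nhdsWithin t (Set.Ioi t)) (nhds v)

/-- Near the parameter `t` the two branches of the curve are in opposite sectors with apex `c t`
and with an opening of less than 90 degrees. -/
def Sectors (c : ℝ → ℂ) (t : ℝ) : Prop := ∃ (κ ρ : ℝ) (w : ℂ), 0 < κ ∧ κ < 1 ∧ 0 < ρ ∧ w ≠ 0 ∧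
  (∀ s, t - ρ < s → s < t → |(w * (c s - c t)).im| ≤ κ * -(w * (c s - c t)).re) ∧
  (∀ s, t < s → s < t + ρ → |(w * (c s - c t)).im| ≤ κ * (w * (c s - c t)).re)

/-- Hourglass at the parameter `t`: for some parameters `a < a₁ < α ≤ t ≤ β < b₁ < b < a + 1` and
some `κ < 1` the arcs over `[a, α]` and over `[β, b]` are in opposite sectors of slope `κ` with apex
`c t` (of opening `2 arctan κ < 90` degrees); the arc over `[α, β]` is arbitrary but at most
`(1 - κ)² / 10` times as far from `c t` as every point of the arcs over `[a, a₁]` and `[b₁, b]`, and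
every point of the arc over `[a₁, b₁]` is at most `(1 - κ)² / 10` times as far from `c t` as `c a`
and as `c b`. Nothing is supposed about the rest of the curve. -/
def Hourglass (c : ℝ → ℂ) (t : ℝ) : Prop :=
  ∃ (κ a a₁ α β b₁ b : ℝ) (w : ℂ), 0 < κ ∧ κ < 1 ∧ w ≠ 0 ∧ a < a₁ ∧ a₁ < α ∧ α ≤ t ∧ t ≤ β ∧
    β < b₁ ∧ b₁ < b ∧ b < a + 1 ∧
    (∀ s ∈ Set.Icc a α, |(w * (c s - c t)).im| ≤ κ * -(w * (c s - c t)).re) ∧
    (∀ s ∈ Set.Icc β b, |(w * (c s - c t)).im| ≤ κ * (w * (c s - c t)).re) ∧
    (∀ s ∈ Set.Icc α β, ∀ s' ∈ Set.Icc a a₁ ∪ Set.Icc b₁ b,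
      10 * ‖c s - c t‖ ≤ (1 - κ) ^ 2 * ‖c s' - c t‖) ∧
    (∀ s ∈ Set.Icc a₁ b₁, 10 * ‖c s - c t‖ ≤ (1 - κ) ^ 2 * ‖c a - c t‖ ∧
      10 * ‖c s - c t‖ ≤ (1 - κ) ^ 2 * ‖c b - c t‖)

/-- Near the parameter `t` there are no parameters `x`, `y`, `u` such that the points `P = c x`,
`Q = c y`, `V = c u` satisfy `V = P + κ (Q - P)` (for `κ = i` or `κ = -i` and `P ≠ Q` they are the
vertices of an isosceles right triangle with right angle at `P`) and such that the fourth vertex
`Q + κ (Q - P)` of the square `P, Q, Q + κ (Q - P), V` is strictly inside the curve. -/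
def NoTriangles (c : ℝ → ℂ) (κ : ℂ) (t : ℝ) : Prop :=
  ∃ ε > 0, ∀ x y u : ℝ, |x - t| < ε → |y - t| < ε → |u - t| < ε →
    ¬ (c u = c x + κ * (c y - c x) ∧ 0 < sdist c (c y + κ * (c y - c x)))

/-- Cusp (or corner with an interior or exterior angle of less than 90 degrees) with Lipschitz
branches: in suitable coordinates (given by `w`) both branches of the curve near `c t` are graphs,
over intervals on the same side of `c t`, of functions with a Lipschitz constant `L < 1`. -/
def Cusp (c : ℝ → ℂ) (t : ℝ) : Prop := ∃ (L ρ : ℝ) (w : ℂ), 0 < L ∧ L < 1 ∧ 0 < ρ ∧ w ≠ 0 ∧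
  (∀ x y, t - ρ < x → x < y → y ≤ t → |(w * (c y - c x)).im| ≤ L * (w * (c y - c x)).re) ∧
  (∀ x y, t ≤ x → x < y → y < t + ρ → |(w * (c x - c y)).im| ≤ L * (w * (c x - c y)).re)

/-- The chords of the arc before `t` are in a cone of opening less than 45 degrees, and also those
of the arc after `t`; nothing is supposed about the relation of the two cones (`κ < √2 - 1` is the
tangent of half of the opening). -/
def Cones (c : ℝ → ℂ) (t : ℝ) : Prop := ∃ κ : ℝ, 0 < κ ∧ κ ^ 2 + 2 * κ < 1 ∧
  ∃ ρ > 0, ∃ u v : ℂ, u ≠ 0 ∧ v ≠ 0 ∧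
  (∀ x y, t - ρ < x → x < y → y ≤ t → |(u * (c y - c x)).im| ≤ κ * (u * (c y - c x)).re) ∧
  (∀ x y, t ≤ x → x < y → y < t + ρ → |(v * (c y - c x)).im| ≤ κ * (v * (c y - c x)).re)

/-- The directions of the chords of the arc after `t` have a limit `v`, and also those of the arc
before `t` have a limit `u` (every `v`, `u` is allowed; for `v = -u` there is a cusp). -/
def StrongTangents (c : ℝ → ℂ) (t : ℝ) : Prop := ∃ u v : ℂ, ‖u‖ = 1 ∧ ‖v‖ = 1 ∧
  ∀ ε > 0, ∃ ρ > 0, (∀ x y, t - ρ < x → x < y → y ≤ t →
      ‖(c y - c x) - (‖c y - c x‖ : ℂ) * u‖ ≤ ε * ‖c y - c x‖) ∧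
    (∀ x y, t ≤ x → x < y → y < t + ρ →
      ‖(c y - c x) - (‖c y - c x‖ : ℂ) * v‖ ≤ ε * ‖c y - c x‖)

/-- The curve is continuously differentiable on closed one-sided neighbourhoods of `t` on both
sides, with one-sided derivatives at `t` that do not vanish (and are otherwise arbitrary). -/
def OneSidedC1 (c : ℝ → ℂ) (t : ℝ) : Prop :=
  (∃ a < t, ContDiffOn ℝ 1 c (Set.Icc a t) ∧ derivWithin c (Set.Icc a t) t ≠ 0) ∧
  ∃ b > t, ContDiffOn ℝ 1 c (Set.Icc t b) ∧ derivWithin c (Set.Icc t b) t ≠ 0

/-- The curve has finite total curvature near the parameter `t`: the sums of the angles by which the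
polygons `c (s 0), ..., c (s (n + 1))` with `t - ρ < s 0 < ... < s (n + 1) < t + ρ` turn at their
inner vertices are bounded. -/
def FiniteCurvature (c : ℝ → ℂ) (t : ℝ) : Prop := ∃ K : ℝ, ∃ ρ > 0, ∀ (n : ℕ) (s : ℕ → ℝ),
  (∀ i ≤ n, s i < s (i + 1)) → t - ρ < s 0 → s (n + 1) < t + ρ →
  ∑ i ∈ Finset.range n, InnerProductGeometry.angle
    (c (s (i + 1)) - c (s i)) (c (s (i + 2)) - c (s (i + 1))) ≤ K

theorem fold_of {c : ℝ → ℂ} {t : ℝ} (h : Cusp c t) : T2h53.Sq.FoldP c t := by
  obtain ⟨κ, ρ, w, h0, h1, hρ, hw, h2, h3⟩ := h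
  have e0 : ∀ x : ℝ, |(w * (c x - c x)).im| ≤ κ * (w * (c x - c x)).re := fun x => by simp
  refine ⟨w, κ, ρ, h0, h1, hρ, hw, fun x y g1 g2 g3 => ?_, fun x y g1 g2 g3 => ?_⟩
  · rcases eq_or_lt_of_le g2 with g | g
    · rw [g]; exact e0 y
    · exact h2 x y g1 g g3
  · rcases eq_or_lt_of_le g2 with g | g
    · rw [g]; exact e0 y
    · exact h3 x y g1 g g3

/-- Let `c` (continuous, of period `1`, injective on `[0, 1)`) parametrise a Jordan curve, and let
`κ = ± i`. Suppose that for each parameter `t`
(1) the curve is locally monotone at `t`, or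
(2) `c` has a non-zero derivative at `t`, or
(3) the curve has one-sided tangents in different directions at `t`, or
(4) near `t` its two branches are in opposite sectors with an opening of less than 90 degrees, or
(5) there is an hourglass at `t` (the curve can be arbitrarily wild at and near `t`), or
(6) near `t` no isosceles right triangle on the curve is completed to a square by a point strictly
inside the curve (for the orientation `κ` of the triangle), or
(7) the curve has a cusp at `t` (inward or outward) with two Lipschitz branches (slopes `L < 1`), or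
(8) the chords just before `t` are in a cone of opening less than 45 degrees, and the chords just
after `t` are in another such cone, or
(9) the directions of the chords just before `t` converge, and those just after `t` converge, or
(10) the curve is continuously differentiable on both sides of `t` up to `t`, with non-zero
one-sided derivatives at `t`, or
(11) near `t` the curve has finite total curvature.
Then the curve contains the four vertices of a square. Different points may satisfy different
conditions. In particular this holds for all Jordan curves of finite total curvature, for all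
piecewise continuously differentiable Jordan curves with non-vanishing one-sided derivatives and for
all Jordan curves with strong one-sided tangents, with arbitrary cusps. If all points satisfy (1)
this is the theorem of Stromquist; for the union of two graphs over a segment with the same end
points and with Lipschitz constants less than `1` it is the theorem of Tao (the two end points
satisfy (7), the others (1)). -/
theorem result (c : ℝ → ℂ) (hc : Continuous c) (hper : ∀ t, c (t + 1) = c t)
    (hinj : Set.InjOn c (Set.Ico 0 1)) (κ : ℂ) (hκ : κ = Complex.I ∨ κ = -Complex.I)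
    (H : ∀ t, LocallyMonotone c t ∨ Differentiable₀ c t ∨ Tangents c t ∨ Sectors c t ∨
      Hourglass c t ∨ NoTriangles c κ t ∨ Cusp c t ∨ Cones c t ∨ StrongTangents c t ∨
      OneSidedC1 c t ∨ FiniteCurvature c t) :
    HasSquare c := by
  have L : H763R2.An.Loop c := ⟨hc, hper⟩
  have J : H763R2.An.Inj c := H765R3.Peg.inj_of L hinj
  have hcone : ∀ {t k : ℝ}, 0 < k → k ^ 2 + 2 * k < 1 → T2h7.Csp.OneSided k c t →
      N335.Hg.Mon c t ∨ T2h53.Sq.FoldP c t := fun h0 h1 h => by
    rcases h.mono_or_fold J h0 h1 with h | h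
    · exact Or.inl h
    · exact Or.inr (fold_of h)
  refine T2h53.Sq.square_fold' L J hκ fun t => ?_
  have fin : N335.Hg.Mon c t ∨ T2h53.Sq.FoldP c t → N335.Hg.Mon c t ∨ N335.Hg.Hourglass c t ∨
      N335.Hg.Tan c t ∨ T2h53.Sq.FoldP c t ∨ N335.Hg.NoP c (fun P Q V => V = P + κ * (Q - P) ∧
      0 < H763R2.An.mgc c (Q + κ * (Q - P))) t := fun h => by
    rcases h with h | h
    · exact Or.inl h
    · exact Or.inr (Or.inr (Or.inr (Or.inl h)))
  rcases H t with h | ⟨v, hv, h⟩ | ⟨u, v, hu, hv, huv, h1, h2⟩ | h | h | ⟨ε, hε, h⟩ | h |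
    ⟨k, h0, h1, h⟩ | h | h | h
  · exact Or.inl h
  · exact Or.inr (Or.inl (N335.Hg.hour_of_cone L J (N335.Hg.cone_of_deriv hv h)))
  · refine Or.inr (Or.inr (Or.inl ⟨u, v, hu, hv, huv, ?_, ?_⟩))
    · convert h1 using 2 with s
      push_cast
      rw [div_eq_inv_mul]
    · convert h2 using 2 with s
      push_cast
      rw [div_eq_inv_mul]
  · exact Or.inr (Or.inl (N335.Hg.hour_of_cone L J h))
  · exact Or.inr (Or.inl h)
  · exact Or.inr (Or.inr (Or.inr (Or.inr ⟨ε, hε, h⟩)))
  · exact Or.inr (Or.inr (Or.inr (Or.inl (fold_of h))))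
  · exact fin (hcone h0 h1 h)
  · exact fin (hcone (k := 1 / 4) (by norm_num) (by norm_num)
      (T2h7.Csp.StrongTan.oneSided h (by norm_num)))
  · exact fin (hcone (k := 1 / 4) (by norm_num) (by norm_num)
      (T2h7.Csp.OneSidedC1.oneSided h (by norm_num)))
  · exact fin (hcone (k := 1 / 4) (by norm_num) (by norm_num)
      (T2h53.Sq.LFTC.oneSided hc J h (by norm_num)))

end Pool.Agent.Results.MP_5a3ebe_gt.CuspsAllowed
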