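import Pool.Agent.T2h56.GRC.Uni

/-! Inscribed squares, and rectangles of every aspect ratio, in the Jordan curves that are the union
of two arcs which are monotone in one direction; in particular in the union of the graphs of two
continuous functions. The vertices follow each other on the curve in their cyclic order.

The proof is a finite dimensional min-max argument (files in `Pool/Agent/T2h56/TG`), written by
helper56 with helper1, helper11, helper20, helper22, helper25, helper54, helper76 and helper83. -/

set_option autoImplicit false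

namespace Pool.Agent.Results.MP_5a3ebe_gt.MonotoneOnTwoArcs

open Set Complex

/-- `c` parametrises a Jordan curve: it is continuous, has period `1` and is injective on `[0, 1)`. -/
def Jordan (c : ℝ → ℂ) : Prop :=
  Continuous c ∧ (∀ t, c (t + 1) = c t) ∧ InjOn c (Ico 0 1)

/-- The curve is the union of two arcs that are monotone in the direction of `w`: on the parameter
interval `[p, q]` the scalar product of `w` and `c` never decreases, and on `[q, p + 1]` it never
increases. It may be constant on parts of the arcs. -/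
def TwoMonotoneArcs (c : ℝ → ℂ) (w : ℂ) : Prop := ∃ p q : ℝ, p < q ∧ q < p + 1 ∧
  MonotoneOn (fun t => w.re * (c t).re + w.im * (c t).im) (Icc p q) ∧
  AntitoneOn (fun t => w.re * (c t).re + w.im * (c t).im) (Icc q (p + 1))

/-- Four points of the curve, met in this order in one turn along the curve, are the consecutive
vertices of a nondegenerate rectangle; the side `v` is `r` times as long as the side `u` and
orthogonal to it. -/
def GracefulRectangle (c : ℝ → ℂ) (r : ℝ) : Prop := ∃ (t₁ t₂ t₃ t₄ : ℝ) (u v : ℂ),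
  t₁ < t₂ ∧ t₂ < t₃ ∧ t₃ < t₄ ∧ t₄ < t₁ + 1 ∧ u ≠ 0 ∧ (v = r * I * u ∨ v = -(r * I * u)) ∧
  c t₂ = c t₁ + u ∧ c t₃ = c t₁ + u + v ∧ c t₄ = c t₁ + v

/-- Four points of the curve, met in this order in one turn along the curve, are the consecutive
vertices of a nondegenerate square. -/
def GracefulSquare (c : ℝ → ℂ) : Prop := ∃ (t₁ t₂ t₃ t₄ : ℝ) (u v : ℂ),
  t₁ < t₂ ∧ t₂ < t₃ ∧ t₃ < t₄ ∧ t₄ < t₁ + 1 ∧ u ≠ 0 ∧ (v = I * u ∨ v = -(I * u)) ∧
  c t₂ = c t₁ + u ∧ c t₃ = c t₁ + u + v ∧ c t₄ = c t₁ + v

/-- A Jordan curve is injective on each half open interval of length `1`. -/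
theorem injOn_shift {c : ℝ → ℂ} (hper : ∀ t, c (t + 1) = c t) (hinj : InjOn c (Ico 0 1)) (p : ℝ) :
    InjOn (fun t => c (p + t)) (Ico 0 1) := by
  have hP : Function.Periodic c 1 := hper
  have hfr : ∀ x : ℝ, c (Int.fract x) = c x := by
    intro x
    have h := (hP.int_mul ⌊x⌋) (Int.fract x)
    rw [mul_one, Int.fract_add_floor] at h
    exact h.symm
  intro s hs t ht hst
  have h1 : c (Int.fract (p + s)) = c (Int.fract (p + t)) := by
    rw [hfr, hfr]
    exact hst
  have h2 := hinj ⟨Int.fract_nonneg _, Int.fract_lt_one _⟩ ⟨Int.fract_nonneg _, Int.fract_lt_one _⟩ h1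
  obtain ⟨n, hn⟩ := Int.fract_eq_fract.1 h2
  have h3 : s - t = n := by linarith
  have h4 : (n : ℝ) < 1 := by linarith [hs.2, ht.1]
  have h5 : (-1 : ℝ) < n := by linarith [hs.1, ht.2]
  have h6 : n < 1 := by exact_mod_cast h4
  have h7 : -1 < n := by exact_mod_cast h5
  have h8 : n = 0 := by omega
  rw [h8, Int.cast_zero] at h3
  linarith

theorem rectangle (c : ℝ → ℂ) (hc : Jordan c) (h : ∃ w : ℂ, w ≠ 0 ∧ TwoMonotoneArcs c w) :
    ∀ r : ℝ, 0 < r → GracefulRectangle c r := by
  intro r hr
  obtain ⟨hcont, hper, hinj⟩ := hc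
  obtain ⟨w, hw, p, q, hpq, hqp, h1, h2⟩ := h
  have hre : ∀ z : ℂ, (starRingEnd ℂ w * z).re = w.re * z.re + w.im * z.im := by
    intro z
    rw [mul_re, conj_re, conj_im]
    ring
  have hw' : starRingEnd ℂ w ≠ 0 := by
    rwa [Ne, map_eq_zero]
  obtain ⟨t1, t2, t3, t4, u, v, g1, g2, g3, g4, hu, hv, e1, e2, e3⟩ :=
    T2h56.GRC.gr_uni (c := fun t => starRingEnd ℂ w * c (p + t)) (m := q - p) hr
    (continuous_const.mul (hcont.comp (continuous_const.add continuous_id)))
    (fun t => by rw [← add_assoc, hper])
    (fun s hs t ht hst => injOn_shift hper hinj p hs ht (mul_left_cancel₀ hw' hst))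
    (by linarith) (by linarith)
    (fun s hs t ht hst => by
      simp only [hre]
      exact h1 ⟨by linarith [hs.1], by linarith [hs.2]⟩ ⟨by linarith [ht.1], by linarith [ht.2]⟩
        (by linarith))
    (fun s hs t ht hst => by
      simp only [hre]
      exact h2 ⟨by linarith [hs.1], by linarith [hs.2]⟩ ⟨by linarith [ht.1], by linarith [ht.2]⟩
        (by linarith))
  have e1' : starRingEnd ℂ w * c (p + t2) = starRingEnd ℂ w * c (p + t1) + u := e1
  have e2' : starRingEnd ℂ w * c (p + t3) = starRingEnd ℂ w * c (p + t1) + u + v := e2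
  have e3' : starRingEnd ℂ w * c (p + t4) = starRingEnd ℂ w * c (p + t1) + v := e3
  refine ⟨p + t1, p + t2, p + t3, p + t4, (starRingEnd ℂ w)⁻¹ * u, (starRingEnd ℂ w)⁻¹ * v,
    by linarith, by linarith, by linarith, by linarith, mul_ne_zero (inv_ne_zero hw') hu, ?_,
    ?_, ?_, ?_⟩
  · rcases hv with hv | hv
    · left; rw [hv]; ring
    · right; rw [hv]; ring
  · apply mul_left_cancel₀ hw'
    rw [e1', mul_add, mul_inv_cancel_left₀ hw']
  · apply mul_left_cancel₀ hw'
    rw [e2', mul_add, mul_add, mul_inv_cancel_left₀ hw', mul_inv_cancel_left₀ hw']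
  · apply mul_left_cancel₀ hw'
    rw [e3', mul_add, mul_inv_cancel_left₀ hw']

/-- Let the Jordan curve `c` be the union of two arcs which are monotone in a common direction; no
regularity is supposed. Then some four points of the curve, met in this order along the curve, are
the consecutive vertices of a square. More generally, this holds for rectangles of each aspect ratio.
For instance, the curve can be the union of the graphs of any two continuous functions `f < g` on an
open interval which agree at its ends. -/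
theorem result (c : ℝ → ℂ) (hc : Jordan c) (h : ∃ w : ℂ, w ≠ 0 ∧ TwoMonotoneArcs c w) :
    GracefulSquare c ∧ ∀ r : ℝ, 0 < r → GracefulRectangle c r := by
  refine ⟨?_, rectangle c hc h⟩
  obtain ⟨t1, t2, t3, t4, u, v, g1, g2, g3, g4, hu, hv, e1, e2, e3⟩ := rectangle c hc h 1 one_pos
  refine ⟨t1, t2, t3, t4, u, v, g1, g2, g3, g4, hu, ?_, e1, e2, e3⟩
  rwa [ofReal_one, one_mul] at hv

end Pool.Agent.Results.MP_5a3ebe_gt.MonotoneOnTwoArcs
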