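import Pool.Agent.T2h51.LS.Main2

/-! Large inscribed squares in quasicircles and in Jordan curves that satisfy a condition at a single
scale. -/

set_option autoImplicit false

namespace Pool.Agent.Results.MP_5a3ebe_gt.QuasicircleSquares

/-- The closed curve `c` (of period `1`) winds `n` times around `O`. -/
def Winds (c : ℝ → ℂ) (O : ℂ) (n : ℤ) : Prop :=
  ∃ k : ℝ → ℂ, Continuous k ∧ (∀ t, Complex.exp (k t) = c t - O) ∧
    k 1 - k 0 = n * (2 * Real.pi * Complex.I)

/-- `O` is enclosed by the closed curve `c`: the curve winds an odd number of times around `O`. (For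
a Jordan curve these are the points inside the curve.) -/
def Encl (c : ℝ → ℂ) (O : ℂ) : Prop := ∃ n : ℤ, Winds c O n ∧ Odd n

open Classical in
/-- The signed distance of `z` to the closed curve `c`: the distance of `z` to the curve if `z` is
enclosed, and minus the distance otherwise. -/
noncomputable def sdist (c : ℝ → ℂ) (z : ℂ) : ℝ :=
  if Encl c z then Metric.infDist z (Set.range c) else -Metric.infDist z (Set.range c)

/-- The arc of the curve over `[x, y]` is short (as seen from `O`): its points can be seen from `O`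
under angles that change continuously, by less than `π` up to an even number of full turns, from
`c x` to `c y`. (If `O` is not on the chord from `c x` to `c y`, this means that the closed curve
formed by the arc and the chord winds an even number of times around `O`. Then exactly one of the two
arcs of a closed curve around `O` between these points is short.) -/
def Short (c : ℝ → ℂ) (O : ℂ) (x y : ℝ) : Prop :=
  ∃ k : ℝ → ℂ, Continuous k ∧ (∀ t, Complex.exp (k t) = c t - O) ∧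
    ∃ m : ℤ, |(k y - k x).im - 2 * m * (2 * Real.pi)| < Real.pi

/-- `ρ` gives a scale `ρ (A, B)` for the chords `A B` of the curve, which is small in comparison with
the distances of `A` and `B` from `O`. Example: a constant `r ≤ √2 dist (O, C)`. -/
structure Gauge (c : ℝ → ℂ) (O : ℂ) (ρ : ℂ × ℂ → ℝ) : Prop where
  cont : Continuous ρ
  pos : ∀ x y, 0 < ρ (c x, c y)
  le1 : ∀ x y, ρ (c x, c y) ≤ √2 * ‖c x - O‖
  le2 : ∀ x y, ρ (c x, c y) ≤ √2 * ‖c y - O‖

/-- `A`, `B`, `B + κ(B - A)`, `A + κ(B - A)` are on the curve; for `κ = i` or `κ = -i` and `A ≠ B`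
these are the vertices of a square, and `A B` is one of its sides. -/
def Sq (c : ℝ → ℂ) (κ A B : ℂ) : Prop :=
  A ∈ Set.range c ∧ B ∈ Set.range c ∧ B + κ * (B - A) ∈ Set.range c ∧
    A + κ * (B - A) ∈ Set.range c

/-- The points `A` and `B` are the end points of an arc of the curve all of whose points `P`
satisfy `φ P`. -/
def Joined (c : ℝ → ℂ) (A B : ℂ) (φ : ℂ → Prop) : Prop :=
  ∃ x y, x < y ∧ y < x + 1 ∧ (A = c x ∧ B = c y ∨ A = c y ∧ B = c x) ∧
    ∀ t ∈ Set.Icc x y, φ (c t)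

/-- Any two different points `A` and `B` of the curve are the end points of an arc of the curve with
`|P - A| + |P - B| ≤ K |A - B|` for all its points `P`. (The Jordan curves with this property for some
`K` are the quasicircles.) -/
def ThreePoint (c : ℝ → ℂ) (K : ℝ) : Prop :=
  ∀ A ∈ Set.range c, ∀ B ∈ Set.range c, A ≠ B →
    Joined c A B fun P => ‖P - A‖ + ‖P - B‖ ≤ K * ‖B - A‖

/-- The circle of radius `R` around `0`. -/
noncomputable def circle (R : ℝ) (t : ℝ) : ℂ := R * Complex.exp (2 * Real.pi * t * Complex.I)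

open Pool.Agent Pool.Agent.H763R2 in
theorem sdist_eq (c : ℝ → ℂ) : sdist c = An.mgc c := by
  funext z
  rfl

open Complex Pool.Agent Pool.Agent.H763R2 in
theorem short_iff {c : ℝ → ℂ} {O : ℂ} {k : ℝ → ℂ} (hk : Continuous k)
    (he : ∀ t, exp (k t) = c t - O) {x y : ℝ} : Short c O x y ↔ 0 < T2h51.LS.sgk k x y := by
  constructor
  · rintro ⟨k', hk', he', m, hm⟩
    have e : k y - k x = k' y - k' x := by
      have := H777R2.exp_const (X := ℝ) (k := fun t => k t - k' t) (hk.sub hk') (c := 1)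
        (fun t => by
          rw [exp_sub, he, he']
          have : c t - O ≠ 0 := by rw [← he]; exact exp_ne_zero _
          exact div_self this) y x
      linear_combination this
    unfold T2h51.LS.sgk
    rw [e, show (k' y - k' x).im / 2 = ((k' y - k' x).im - 2 * m * (2 * Real.pi)) / 2 +
      m * (2 * Real.pi) by ring, Real.cos_add_int_mul_two_pi]
    rw [abs_lt] at hm
    refine Real.cos_pos_of_mem_Ioo ⟨by linarith, by linarith⟩
  · intro h
    unfold T2h51.LS.sgk at h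
    set a : ℝ := (k y - k x).im / 2 with ha
    refine ⟨k, hk, he, round (a / (2 * Real.pi)), ?_⟩
    set m := round (a / (2 * Real.pi)) with hm
    have hp := Real.pi_pos
    have h1 := abs_sub_round (a / (2 * Real.pi))
    rw [← hm, abs_le] at h1
    have h2 : |a - m * (2 * Real.pi)| ≤ Real.pi := by
      have e : a - m * (2 * Real.pi) = (a / (2 * Real.pi) - m) * (2 * Real.pi) := by
        field_simp
      rw [e, abs_le]
      constructor <;> nlinarith
    have h3 : 0 < Real.cos |a - m * (2 * Real.pi)| := by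
      rw [Real.cos_abs, Real.cos_sub_int_mul_two_pi]; exact h
    have h4 : |a - m * (2 * Real.pi)| < Real.pi / 2 := by
      by_contra hcon
      have := Real.cos_nonpos_of_pi_div_two_le_of_le (not_lt.1 hcon) (by linarith)
      linarith
    have e : (k y - k x).im - 2 * m * (2 * Real.pi) = 2 * (a - m * (2 * Real.pi)) := by
      rw [ha]; ring
    rw [e, abs_mul, abs_two]
    linarith

open Complex Pool.Agent Pool.Agent.H763R2 in
theorem step1 {c : ℝ → ℂ} (hc : Continuous c) (hper : ∀ t, c (t + 1) = c t)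
    (J : An.Inj c) {O : ℂ} (hO : Encl c O) {ρ : ℂ × ℂ → ℝ} (hρ : Gauge c O ρ) {κ : ℂ}
    (hκ : κ = I ∨ κ = -I) {s : ℝ} (hs : s = 1 ∨ s = -1) :
    (∃ A B, Sq c κ A B ∧ ρ (A, B) ≤ ‖B - A‖) ∨
    ∃ x y A B, x < y ∧ y < x + 1 ∧ Short c O x y ∧ (A = c x ∧ B = c y ∨ A = c y ∧ B = c x) ∧
      ‖B - A‖ = ρ (A, B) ∧ A + κ * (B - A) ∈ c '' Set.Icc x y ∧
      0 ≤ s * sdist c (B + κ * (B - A)) := by
  have L : An.Loop c := ⟨hc, hper⟩
  obtain ⟨n, ⟨k, hk, he, hkn⟩, hn⟩ := hO
  have hkp := T2h51.LS.k_inc L hk he hkn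
  by_contra hcon
  push Not at hcon
  obtain ⟨h1, h2⟩ := hcon
  have eD : ∀ x y, An.DD c x y = c x + I * (c y - c x) := fun x y => by
    unfold An.DD H763R2.Sq.Dv; ring
  have eC : ∀ x y, An.CC c x y = c y + I * (c y - c x) := fun x y => by
    unfold An.CC H763R2.Sq.Cv; ring
  have hI1 : (1 : ℂ) + I ≠ 0 := fun h => by
    have := congrArg Complex.re h
    simp at this
  have hI2 : (1 : ℂ) - I ≠ 0 := fun h => by
    have := congrArg Complex.re h
    simp at this
  have gre : ∀ x y, (An.GG c (An.mgc c) x y).re = An.mgc c (An.DD c x y) := fun x y => by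
    unfold An.GG; simp
  have gim : ∀ x y, (An.GG c (An.mgc c) x y).im = An.mgc c (An.CC c x y) := fun x y => by
    unfold An.GG; simp
  have hs0 : s ≠ 0 := by rcases hs with rfl | rfl <;> norm_num
  have hγ0 : ∀ x y, ‖c y - c x‖ = ρ (c x, c y) → T2h51.LS.sgk k x y ≠ 0 := fun x y h =>
    T2h51.LS.sgk_ne he h.le (hρ.le1 x y) (hρ.le2 x y)
  have hγ0' : ∀ x y, ‖c y - c x‖ = ρ (c y, c x) → T2h51.LS.sgk k x y ≠ 0 := fun x y h =>
    T2h51.LS.sgk_ne he h.le (hρ.le2 y x) (hρ.le1 y x)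
  have flip : ∀ x y, T2h51.LS.sgk k x y < 0 → Short c O y (x + 1) := fun x y h => by
    rw [short_iff hk he, T2h51.LS.sgk_y hn hkp]
    have e : T2h51.LS.sgk k y x = T2h51.LS.sgk k x y := by
      unfold T2h51.LS.sgk
      rw [show k x - k y = -(k y - k x) by ring, neg_im, neg_div, Real.cos_neg]
    rw [e]; linarith
  rcases hκ with rfl | rfl
  · refine T2h51.LS.main2 L J hn hk he hkn (γ := fun x y => ρ (c x, c y))
      (hρ.cont.comp (by fun_prop)) (fun x y => by rw [hper]) (fun x y => by rw [hper])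
      hρ.pos hρ.le1 hρ.le2 (u := I * s) (mul_ne_zero I_ne_zero (by exact_mod_cast hs0)) ?_
      (V := fun p => An.DD c p.1 p.2) L.DD_cont (fun x y => L.DD_per x y) ?_ ?_ ?_
    · rintro x y - - hle ⟨hD, hC⟩
      rw [eD] at hD
      rw [eC] at hC
      exact absurd hle (not_le.2 (h1 _ _ ⟨Set.mem_range_self x, Set.mem_range_self y, hC, hD⟩))
    · intro x y _ _ _ hsl
      rw [mem_slitPlane_iff] at hsl
      push Not at hsl
      have h := hsl.2
      rw [mul_assoc, I_mul_im, re_ofReal_mul, gre] at h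
      exact ((An.mgc_sg L).zero L).1 ((mul_eq_zero.1 h).resolve_left hs0)
    · intro x y hne
      simp only [eD]
      have hne' : c y - c x ≠ 0 := sub_ne_zero.2 (Ne.symm hne)
      refine ⟨fun h => ?_, fun h => ?_⟩
      · exact mul_ne_zero I_ne_zero hne' (by linear_combination h)
      · exact mul_ne_zero hI2 hne' (by linear_combination -h)
    · intro x y t hx hy hxy hsl ht
      rw [mem_slitPlane_iff] at hsl
      push Not at hsl
      have hE : 0 ≤ s * sdist c (c y + I * (c y - c x)) := by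
        have h := hsl.1
        rw [mul_assoc, I_mul_re, im_ofReal_mul, gim, eC] at h
        rw [sdist_eq]; linarith
      simp only [eD] at ht
      constructor
      · intro t1 t2
        by_contra hsg
        have hS : Short c O x y := (short_iff hk he).2
          (lt_of_le_of_ne (not_lt.1 hsg) (hγ0 x y hxy).symm)
        have := h2 x y (c x) (c y) hx hy hS (Or.inl ⟨rfl, rfl⟩) hxy ⟨t, ⟨t1, t2⟩, ht⟩
        linarith
      · intro t1 t2
        by_contra hsg
        have hS : Short c O y (x + 1) := flip x y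
          (lt_of_le_of_ne (not_lt.1 hsg) (hγ0 x y hxy))
        have := h2 y (x + 1) (c x) (c y) hy (by linarith) hS (Or.inr ⟨by rw [hper], rfl⟩) hxy
          ⟨t, ⟨t1, t2⟩, ht⟩
        linarith
  · refine T2h51.LS.main2 L J hn hk he hkn (γ := fun x y => ρ (c y, c x))
      (hρ.cont.comp (by fun_prop)) (fun x y => by rw [hper]) (fun x y => by rw [hper])
      (fun x y => hρ.pos y x) (fun x y => hρ.le2 y x) (fun x y => hρ.le1 y x) (u := -(s : ℂ))
      (neg_ne_zero.2 (by exact_mod_cast hs0)) ?_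
      (V := fun p => An.CC c p.1 p.2) L.CC_cont (fun x y => L.CC_per x y) ?_ ?_ ?_
    · rintro x y - - hle ⟨hD, hC⟩
      rw [eD] at hD
      rw [eC] at hC
      refine absurd hle (not_le.2 ?_)
      rw [← norm_neg, neg_sub]
      refine h1 _ _ ⟨Set.mem_range_self y, Set.mem_range_self x, ?_, ?_⟩
      · rw [show c x + -I * (c x - c y) = c x + I * (c y - c x) by ring]; exact hD
      · rw [show c y + -I * (c x - c y) = c y + I * (c y - c x) by ring]; exact hC
    · intro x y _ _ _ hsl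
      rw [mem_slitPlane_iff] at hsl
      push Not at hsl
      have h := hsl.2
      rw [neg_mul, neg_im, im_ofReal_mul, gim, neg_eq_zero] at h
      exact ((An.mgc_sg L).zero L).1 ((mul_eq_zero.1 h).resolve_left hs0)
    · intro x y hne
      simp only [eC]
      have hne' : c y - c x ≠ 0 := sub_ne_zero.2 (Ne.symm hne)
      refine ⟨fun h => ?_, fun h => ?_⟩
      · exact mul_ne_zero hI1 hne' (by linear_combination h)
      · exact mul_ne_zero I_ne_zero hne' (by linear_combination h)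
    · intro x y t hx hy hxy hsl ht
      rw [mem_slitPlane_iff] at hsl
      push Not at hsl
      have hE : 0 ≤ s * sdist c (c x + -I * (c x - c y)) := by
        have h := hsl.1
        rw [neg_mul, neg_re, re_ofReal_mul, gre, eD] at h
        rw [sdist_eq, show c x + -I * (c x - c y) = c x + I * (c y - c x) by ring]; linarith
      simp only [eC] at ht
      have ht' : c t = c y + -I * (c x - c y) := by rw [ht]; ring
      have hxy' : ‖c x - c y‖ = ρ (c y, c x) := by rw [← norm_neg, neg_sub]; exact hxy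
      constructor
      · intro t1 t2
        by_contra hsg
        have hS : Short c O x y := (short_iff hk he).2
          (lt_of_le_of_ne (not_lt.1 hsg) (hγ0' x y hxy).symm)
        have := h2 x y (c y) (c x) hx hy hS (Or.inr ⟨rfl, rfl⟩) hxy' ⟨t, ⟨t1, t2⟩, ht'⟩
        linarith
      · intro t1 t2
        by_contra hsg
        have hS : Short c O y (x + 1) := flip x y
          (lt_of_le_of_ne (not_lt.1 hsg) (hγ0' x y hxy))
        have := h2 y (x + 1) (c y) (c x) hy (by linarith) hS (Or.inl ⟨rfl, by rw [hper]⟩) hxy'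
          ⟨t, ⟨t1, t2⟩, ht'⟩
        linarith

open Complex Pool.Agent Pool.Agent.H763R2 in
theorem inc_eq {c : ℝ → ℂ} (hc : Continuous c) {O w : ℂ} {k : ℝ → ℂ} (hk : Continuous k)
    (he : ∀ t, exp (k t) = c t - O) {a b : ℝ} (hab : a ≤ b)
    (h : ∀ t ∈ Set.Icc a b, (c t - O) / w ∈ slitPlane) :
    k b - k a = log ((c b - O) / w) - log ((c a - O) / w) := by
  have hw : w ≠ 0 := by
    rintro rfl
    have := h a ⟨le_rfl, hab⟩
    rw [div_zero] at this
    exact slitPlane_ne_zero this rfl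
  have e := H777R2.exp_const_on (A := Set.Icc a b) isPreconnected_Icc
    (k := fun t => k t - log ((c t - O) / w)) (c := w) (by
      refine hk.continuousOn.sub (ContinuousOn.clog ?_ h)
      exact ((hc.sub continuous_const).div_const w).continuousOn) (fun t ht => by
      rw [exp_sub, he, exp_log (slitPlane_ne_zero (h t ht))]
      have h0 : c t - O ≠ 0 := by rw [← he]; exact exp_ne_zero _
      field_simp) (x := b) (y := a) ⟨hab, le_rfl⟩ ⟨le_rfl, hab⟩
  linear_combination e

open Complex Pool.Agent Pool.Agent.H763R2 in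
theorem short_half {c : ℝ → ℂ} (hc : Continuous c) {O w : ℂ} {k : ℝ → ℂ} (hk : Continuous k)
    (he : ∀ t, exp (k t) = c t - O) {a b : ℝ} (hab : a ≤ b)
    (h : ∀ t ∈ Set.Icc a b, 0 < ((c t - O) / w).re) : Short c O a b := by
  refine ⟨k, hk, he, 0, ?_⟩
  rw [inc_eq hc hk he hab fun t ht => Or.inl (h t ht), sub_im, log_im, log_im, Int.cast_zero,
    mul_zero, zero_mul, sub_zero]
  have h1 := T2h51.LS.half_arg (h b ⟨hab, le_rfl⟩)
  have h2 := T2h51.LS.half_arg (h a ⟨le_rfl, hab⟩)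
  rw [abs_lt]
  constructor <;> linarith [h1.1, h1.2, h2.1, h2.2]

open Complex Pool.Agent Pool.Agent.H763R2 in
theorem arg_lt_of_slit {z : ℂ} (h : z ∈ slitPlane) : |z.arg| < Real.pi := by
  rw [abs_lt]
  exact ⟨neg_pi_lt_arg z, lt_of_le_of_ne (arg_le_pi z) (mem_slitPlane_iff_arg.1 h).1⟩

open Complex Pool.Agent Pool.Agent.H763R2 in
theorem short_base {c : ℝ → ℂ} (hc : Continuous c) {O : ℂ} {k : ℝ → ℂ} (hk : Continuous k)
    (he : ∀ t, exp (k t) = c t - O) {a b s : ℝ} (hab : a ≤ b) (hs : s = a ∨ s = b)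
    (h : ∀ t ∈ Set.Icc a b, (c t - O) / (c s - O) ∈ slitPlane) : Short c O a b := by
  refine ⟨k, hk, he, 0, ?_⟩
  rw [inc_eq hc hk he hab h, sub_im, log_im, log_im, Int.cast_zero,
    mul_zero, zero_mul, sub_zero]
  have h0 : c s - O ≠ 0 := by rw [← he]; exact exp_ne_zero _
  have h1 := arg_lt_of_slit (h b ⟨hab, le_rfl⟩)
  have h2 := arg_lt_of_slit (h a ⟨le_rfl, hab⟩)
  rcases hs with rfl | rfl
  · rw [div_self h0, arg_one, sub_zero]; exact h1
  · rw [div_self h0, arg_one, zero_sub, abs_neg]; exact h2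

open Complex in
theorem ell {a b z : ℂ} (ha : a ≠ 0) (hb : b ≠ 0) (hz : z ≠ 0) (hab : ‖b - a‖ < ‖a‖ + ‖b‖)
    (h : ‖z - a‖ + ‖z - b‖ ≤ ‖a‖ + ‖b‖) : 0 < (z / (a / ‖a‖ + b / ‖b‖)).re := by
  have na := norm_pos_iff.2 ha
  have nb := norm_pos_iff.2 hb
  have na' : (‖a‖ : ℂ) ≠ 0 := by exact_mod_cast na.ne'
  have nb' : (‖b‖ : ℂ) ≠ 0 := by exact_mod_cast nb.ne'
  set w : ℂ := a / ‖a‖ + b / ‖b‖ with hw
  have hw0 : w ≠ 0 := by
    intro h0
    have h1 : b / ‖b‖ = -(a / ‖a‖) := by
      rw [hw] at h0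
      linear_combination h0
    have h2 : b - a = -((‖a‖ + ‖b‖ : ℝ) : ℂ) * (a / ‖a‖) := by
      have e1 : b = ‖b‖ * (b / ‖b‖) := by field_simp
      have e2 : a = ‖a‖ * (a / ‖a‖) := by field_simp
      calc b - a = ‖b‖ * (b / ‖b‖) - ‖a‖ * (a / ‖a‖) := by rw [← e1, ← e2]
        _ = _ := by rw [h1]; push_cast; ring
    rw [h2, norm_mul, norm_neg, norm_real, norm_div, norm_real, norm_norm, div_self na.ne', mul_one,
      Real.norm_of_nonneg (by positivity)] at hab
    exact lt_irrefl _ hab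
  have key : ∀ u : ℂ, u ≠ 0 → ‖u‖ - ((starRingEnd ℂ) u * z).re / ‖u‖ ≤ ‖z - u‖ ∧
      (‖u‖ - ((starRingEnd ℂ) u * z).re / ‖u‖ = ‖z - u‖ → ((starRingEnd ℂ) u * z).im = 0) := by
    intro u hu
    have nu := norm_pos_iff.2 hu
    set p : ℂ := (starRingEnd ℂ) u * z with hp
    have e1 : ‖z - u‖ * ‖u‖ = ‖(‖u‖ ^ 2 : ℝ) - p‖ := by
      have : ((‖u‖ ^ 2 : ℝ) : ℂ) - p = -((starRingEnd ℂ) u * (z - u)) := by
        rw [hp, ← normSq_eq_norm_sq, normSq_eq_conj_mul_self]; ring
      rw [this, norm_neg, norm_mul, RCLike.norm_conj, mul_comm]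
    have e2 : ‖((‖u‖ ^ 2 : ℝ) : ℂ) - p‖ ^ 2 = (‖u‖ ^ 2 - p.re) ^ 2 + p.im ^ 2 := by
      rw [← normSq_eq_norm_sq, normSq_apply, sub_re, sub_im, ofReal_re, ofReal_im]; ring
    have h1 : ‖u‖ ^ 2 - p.re ≤ ‖((‖u‖ ^ 2 : ℝ) : ℂ) - p‖ :=
      (le_abs_self _).trans (abs_le_of_sq_le_sq (by rw [e2]; nlinarith [sq_nonneg p.im])
        (norm_nonneg _))
    constructor
    · rw [← mul_le_mul_iff_left₀ nu, e1, sub_mul, div_mul_cancel₀ _ nu.ne']
      have : ‖u‖ * ‖u‖ = ‖u‖ ^ 2 := by ring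
      linarith
    · intro h2
      have h3 : ‖((‖u‖ ^ 2 : ℝ) : ℂ) - p‖ = ‖u‖ ^ 2 - p.re := by
        rw [← e1, ← h2, sub_mul, div_mul_cancel₀ _ nu.ne']; ring
      rw [h3] at e2
      have : p.im ^ 2 = 0 := by linarith
      exact pow_eq_zero_iff (two_ne_zero) |>.1 this
  obtain ⟨a1, a2⟩ := key a ha
  obtain ⟨b1, b2⟩ := key b hb
  have e : (starRingEnd ℂ) w * z = (starRingEnd ℂ) a * z / ‖a‖ + (starRingEnd ℂ) b * z / ‖b‖ := by
    rw [hw, map_add, map_div₀, map_div₀, conj_ofReal, conj_ofReal]; ring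
  have er : ((starRingEnd ℂ) w * z).re = ((starRingEnd ℂ) a * z).re / ‖a‖ +
      ((starRingEnd ℂ) b * z).re / ‖b‖ := by
    rw [e, add_re, div_ofReal_re, div_ofReal_re]
  have ei : ((starRingEnd ℂ) w * z).im = ((starRingEnd ℂ) a * z).im / ‖a‖ +
      ((starRingEnd ℂ) b * z).im / ‖b‖ := by
    rw [e, add_im, div_ofReal_im, div_ofReal_im]
  have hr : 0 < ((starRingEnd ℂ) w * z).re := by
    by_contra hcon
    have h0 : ((starRingEnd ℂ) w * z).re = 0 := by linarith
    have i1 := a2 (by linarith)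
    have i2 := b2 (by linarith)
    rw [i1, i2] at ei
    have : (starRingEnd ℂ) w * z = 0 := Complex.ext h0 (by rw [ei]; simp)
    rcases mul_eq_zero.1 this with h | h
    · exact hw0 ((map_eq_zero _).1 h)
    · exact hz h
  have : z / w = (starRingEnd ℂ) w * z / ((normSq w : ℝ) : ℂ) := by
    have hn : (normSq w : ℂ) ≠ 0 := by exact_mod_cast (normSq_pos.2 hw0).ne'
    rw [div_eq_div_iff hw0 hn, normSq_eq_conj_mul_self]; ring
  rw [this, div_ofReal_re]
  exact div_pos hr (normSq_pos.2 hw0)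

open Complex Pool.Agent Pool.Agent.H763R2 in
theorem inj_of {c : ℝ → ℂ} (hper : ∀ t, c (t + 1) = c t) (hinj : Set.InjOn c (Set.Ico 0 1)) :
    An.Inj c := by
  intro x y h1 h2 h
  have hp : ∀ (t : ℝ) (n : ℤ), c (t + n) = c t := by
    intro t n
    have := (show Function.Periodic c 1 from hper).int_mul n t
    simpa using this
  have e : ∀ t, c (Int.fract t) = c t := fun t => by
    rw [← hp (Int.fract t) ⌊t⌋, Int.fract_add_floor]
  have h3 := hinj ⟨Int.fract_nonneg x, Int.fract_lt_one x⟩ ⟨Int.fract_nonneg y, Int.fract_lt_one y⟩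
    (by rw [e, e, h])
  have h4 := Int.fract_add_floor x
  have h5 := Int.fract_add_floor y
  have h6 : y - x = ((⌊y⌋ - ⌊x⌋ : ℤ) : ℝ) := by
    push_cast; linarith
  have h7 : (0 : ℝ) < ((⌊y⌋ - ⌊x⌋ : ℤ) : ℝ) := by rw [← h6]; linarith
  have h8 : ((⌊y⌋ - ⌊x⌋ : ℤ) : ℝ) < 1 := by rw [← h6]; linarith
  have h9 : 0 < ⌊y⌋ - ⌊x⌋ := by exact_mod_cast h7
  have h10 : ⌊y⌋ - ⌊x⌋ < 1 := by exact_mod_cast h8
  omega

open Complex Pool.Agent Pool.Agent.H763R2 in
/-- an arc with the end points `c x`, `c y` is one of the two arcs between them -/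
theorem two_arcs {c : ℝ → ℂ} (L : An.Loop c) (J : An.Inj c) {x y x' y' : ℝ} (h1 : x < y)
    (h2 : y < x + 1) (h1' : x' < y') (h2' : y' < x' + 1)
    (h : c x' = c x ∧ c y' = c y ∨ c x' = c y ∧ c y' = c x) :
    ∃ n : ℤ, (x' = x + n ∧ y' = y + n) ∨ (x' = y + n ∧ y' = x + 1 + n) := by
  have eq_of : ∀ s t : ℝ, c s = c t → ∃ n : ℤ, s = t + n := by
    intro s t hst
    refine ⟨⌊s - t⌋, ?_⟩
    by_contra hne
    have f1 := Int.floor_le (s - t)
    have f2 := Int.lt_floor_add_one (s - t)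
    have f3 : t + ⌊s - t⌋ < s := lt_of_le_of_ne (by linarith) (Ne.symm hne)
    refine J (t + ⌊s - t⌋) s f3 (by linarith) ?_
    rw [L.per_int, hst]
  rcases h with ⟨e1, e2⟩ | ⟨e1, e2⟩
  · obtain ⟨n, hn⟩ := eq_of x' x e1
    obtain ⟨m, hm⟩ := eq_of y' y e2
    refine ⟨n, Or.inl ⟨hn, ?_⟩⟩
    have a1 : ((m - n : ℤ) : ℝ) < 1 := by push_cast; linarith
    have a2 : (-1 : ℝ) < ((m - n : ℤ) : ℝ) := by push_cast; linarith
    have a3 : m - n < 1 := by exact_mod_cast a1
    have a4 : -1 < m - n := by exact_mod_cast a2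
    have : m = n := by omega
    rw [hm, this]
  · obtain ⟨n, hn⟩ := eq_of x' y e1
    obtain ⟨m, hm⟩ := eq_of y' x e2
    refine ⟨n, Or.inr ⟨hn, ?_⟩⟩
    have a1 : ((m - n : ℤ) : ℝ) < 2 := by push_cast; linarith
    have a2 : (0 : ℝ) < ((m - n : ℤ) : ℝ) := by push_cast; linarith
    have a3 : m - n < 2 := by exact_mod_cast a1
    have a4 : 0 < m - n := by exact_mod_cast a2
    have : m = n + 1 := by omega
    rw [hm, this]; push_cast; ring

open Complex in
theorem norm_diag {A B κ : ℂ} (hκ : κ = I ∨ κ = -I) :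
    ‖A + κ * (B - A) - A‖ + ‖A + κ * (B - A) - B‖ = (1 + √2) * ‖B - A‖ := by
  have h1 : ‖A + κ * (B - A) - A‖ = ‖B - A‖ := by
    rw [add_sub_cancel_left, norm_mul]
    rcases hκ with rfl | rfl <;> simp
  have h2 : ‖A + κ * (B - A) - B‖ = √2 * ‖B - A‖ := by
    rw [show A + κ * (B - A) - B = (κ - 1) * (B - A) by ring, norm_mul]
    congr 1
    rw [norm_def, normSq_apply]
    rcases hκ with rfl | rfl <;> (simp; norm_num)
  rw [h1, h2]; ring

open Complex Pool.Agent Pool.Agent.H763R2 in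
theorem step2 {c : ℝ → ℂ} (hc : Continuous c) (hper : ∀ t, c (t + 1) = c t)
    (J : An.Inj c) {O : ℂ} (hO : Encl c O) {ρ : ℂ × ℂ → ℝ} (hρ : Gauge c O ρ)
    (h : ∀ A ∈ Set.range c, ∀ B ∈ Set.range c, ‖B - A‖ = ρ (A, B) →
      Joined c A B fun P => ‖P - A‖ + ‖P - B‖ ≤ ‖A - O‖ + ‖B - O‖ ∧
        ‖P - A‖ + ‖P - B‖ < (1 + √2) * ‖B - A‖) {κ : ℂ} (hκ : κ = I ∨ κ = -I) :
    ∃ A B, Sq c κ A B ∧ ρ (A, B) ≤ ‖B - A‖ := by
  have L : An.Loop c := ⟨hc, hper⟩
  rcases step1 hc hper J hO hρ hκ (s := 1) (Or.inl rfl) with h0 | ⟨x, y, A, B, hx, hy, hS, hAB, hr,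
    ⟨t, ht, htD⟩, -⟩
  · exact h0
  exfalso
  obtain ⟨n, ⟨k, hk, he, hkn⟩, hn⟩ := hO
  have hkp := T2h51.LS.k_inc L hk he hkn
  have hA : A ∈ Set.range c := by
    rcases hAB with ⟨rfl, -⟩ | ⟨rfl, -⟩ <;> exact Set.mem_range_self _
  have hB : B ∈ Set.range c := by
    rcases hAB with ⟨-, rfl⟩ | ⟨-, rfl⟩ <;> exact Set.mem_range_self _
  obtain ⟨x', y', h1, h2, hAB', hφ⟩ := h A hA B hB hr
  have hcc : c x' = c x ∧ c y' = c y ∨ c x' = c y ∧ c y' = c x := by
    rcases hAB with ⟨e1, e2⟩ | ⟨e1, e2⟩ <;> rcases hAB' with ⟨e3, e4⟩ | ⟨e3, e4⟩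
    · exact Or.inl ⟨by rw [← e1, ← e3], by rw [← e2, ← e4]⟩
    · exact Or.inr ⟨by rw [← e2, ← e4], by rw [← e1, ← e3]⟩
    · exact Or.inr ⟨by rw [← e1, ← e3], by rw [← e2, ← e4]⟩
    · exact Or.inl ⟨by rw [← e2, ← e4], by rw [← e1, ← e3]⟩
  obtain ⟨m, hm | hm⟩ := two_arcs L J hx hy h1 h2 hcc
  · have := (hφ (t + m) ⟨by linarith [hm.1, ht.1], by linarith [hm.2, ht.2]⟩).2
    rw [L.per_int, htD, norm_diag hκ] at this
    exact lt_irrefl _ this
  · have hA0 : A - O ≠ 0 := by
      obtain ⟨a, rfl⟩ := hA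
      rw [← he]; exact exp_ne_zero _
    have hB0 : B - O ≠ 0 := by
      obtain ⟨b, rfl⟩ := hB
      rw [← he]; exact exp_ne_zero _
    have hr1 : ρ (A, B) ≤ √2 * ‖A - O‖ := by
      obtain ⟨a, rfl⟩ := hA
      obtain ⟨b, rfl⟩ := hB
      exact hρ.le1 a b
    have hr2 : ρ (A, B) ≤ √2 * ‖B - O‖ := by
      obtain ⟨a, rfl⟩ := hA
      obtain ⟨b, rfl⟩ := hB
      exact hρ.le2 a b
    have na := norm_pos_iff.2 hA0
    have nb := norm_pos_iff.2 hB0
    have hs0 : 0 < √2 := by positivity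
    have hs2 : √2 * √2 = 2 := Real.mul_self_sqrt (by norm_num)
    have hs3 : √2 < 2 := by nlinarith
    have hS' : Short c O x' y' := by
      refine short_half hc hk he h1.le (w := (A - O) / ‖A - O‖ + (B - O) / ‖B - O‖) fun s hs => ?_
      have hP := (hφ s hs).1
      refine ell hA0 hB0 (by rw [← he]; exact exp_ne_zero _) ?_ ?_
      · rw [show B - O - (A - O) = B - A by ring, hr]
        nlinarith
      · rw [show c s - O - (A - O) = c s - A by ring, show c s - O - (B - O) = c s - B by ring]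
        exact hP
    rw [short_iff hk he] at hS hS'
    rw [hm.1, hm.2] at hS'
    have e1 : ∀ j : ℤ, ∀ s, k (s + j) = k s + j * (n * (2 * Real.pi * I)) := by
      intro j s
      have hF : Function.Periodic (fun s => k s - s * (n * (2 * Real.pi * I))) 1 := fun s => by
        simp only
        rw [hkp]; push_cast; ring
      have := hF.int_mul j s
      simp only [mul_one] at this
      push_cast at this
      linear_combination this
    have e2 : T2h51.LS.sgk k (y + m) (x + 1 + m) = T2h51.LS.sgk k y (x + 1) := by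
      unfold T2h51.LS.sgk
      rw [e1, e1]
      congr 3
      ring
    rw [e2, T2h51.LS.sgk_y hn hkp] at hS'
    have e3 : T2h51.LS.sgk k y x = T2h51.LS.sgk k x y := by
      unfold T2h51.LS.sgk
      rw [show k x - k y = -(k y - k x) by ring, neg_im, neg_div, Real.cos_neg]
    rw [e3] at hS'
    linarith

open Complex Pool.Agent Pool.Agent.H763R2 in
theorem not_both {c : ℝ → ℂ} (hc : Continuous c) (hper : ∀ t, c (t + 1) = c t) {O : ℂ}
    (hO : Encl c O) {x y : ℝ} (h1 : Short c O x y) (h2 : Short c O y (x + 1)) : False := by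
  have L : An.Loop c := ⟨hc, hper⟩
  obtain ⟨n, ⟨k, hk, he, hkn⟩, hn⟩ := hO
  have hkp := T2h51.LS.k_inc L hk he hkn
  rw [short_iff hk he] at h1 h2
  rw [T2h51.LS.sgk_y hn hkp] at h2
  have e3 : T2h51.LS.sgk k y x = T2h51.LS.sgk k x y := by
    unfold T2h51.LS.sgk
    rw [show k x - k y = -(k y - k x) by ring, neg_im, neg_div, Real.cos_neg]
  rw [e3] at h2
  linarith

theorem dist_le {c : ℝ → ℂ} {O : ℂ} {a r : ℝ} (ha : 0 ≤ a)
    (h : r ≤ a * Metric.infDist O (Set.range c)) (x : ℝ) : r ≤ a * ‖c x - O‖ := by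
  refine h.trans (mul_le_mul_of_nonneg_left ?_ ha)
  rw [← dist_eq_norm, dist_comm]
  exact Metric.infDist_le_dist_of_mem (Set.mem_range_self x)

open Complex Pool.Agent Pool.Agent.H763R2 in
theorem step4 {c : ℝ → ℂ} (hc : Continuous c) (hper : ∀ t, c (t + 1) = c t)
    (J : An.Inj c) {O : ℂ} (hO : Encl c O) {r : ℝ} (hr : 0 < r)
    (hrO : r ≤ √2 * Metric.infDist O (Set.range c))
    (h : ∀ A ∈ Set.range c, ∃ B₁ B₂ : ℂ, ∀ B ∈ Set.range c, ‖B - A‖ = r → B = B₁ ∨ B = B₂)
    {κ : ℂ} (hκ : κ = I ∨ κ = -I) : ∃ A B, Sq c κ A B ∧ r ≤ ‖B - A‖ := by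
  have L : An.Loop c := ⟨hc, hper⟩
  have hs0 : 0 < √2 := by positivity
  have hs2 : √2 * √2 = 2 := Real.mul_self_sqrt (by norm_num)
  have hs1 : 1 < √2 := by nlinarith
  have far : ∀ x, r ≤ √2 * ‖c x - O‖ := fun x => dist_le hs0.le hrO x
  rcases step1 hc hper J hO (ρ := fun _ => r) ⟨continuous_const, fun _ _ => hr,
    fun x _ => far x, fun _ y => far y⟩ hκ (s := 1)
    (Or.inl rfl) with h0 | ⟨x, y, A, B, hx, hy, hS, hAB, hAr, ⟨t, ht, htD⟩, -⟩
  · exact h0
  exfalso
  refine not_both hc hper hO hS ?_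
  obtain ⟨n, ⟨k, hk, he, hkn⟩, hn⟩ := hO
  have hA : A ∈ Set.range c := by
    rcases hAB with ⟨rfl, -⟩ | ⟨rfl, -⟩ <;> exact Set.mem_range_self _
  have hB : B ∈ Set.range c := by
    rcases hAB with ⟨-, rfl⟩ | ⟨-, rfl⟩ <;> exact Set.mem_range_self _
  have hκn : ‖κ‖ = 1 := by rcases hκ with rfl | rfl <;> simp
  have hBA : B - A ≠ 0 := norm_pos_iff.1 (by rw [hAr]; exact hr)
  have hκ0 : κ ≠ 0 := by rcases hκ with rfl | rfl <;> simp
  have hκ1 : κ - 1 ≠ 0 := by
    intro h0
    have := congrArg Complex.re h0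
    rcases hκ with rfl | rfl <;> simp at this
  have hDA : c t ≠ A := fun h0 => mul_ne_zero hκ0 hBA (by rw [htD] at h0; linear_combination h0)
  have hDB : c t ≠ B := fun h0 => mul_ne_zero hκ1 hBA (by rw [htD] at h0; linear_combination h0)
  have hDr : ‖c t - A‖ = r := by
    rw [htD, add_sub_cancel_left, norm_mul, hκn, one_mul, hAr]
  have htx : x < t := by
    refine lt_of_le_of_ne ht.1 fun e => ?_
    rcases hAB with ⟨e1, -⟩ | ⟨-, e1⟩
    · exact hDA (by rw [e1, e])
    · exact hDB (by rw [e1, e])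
  have hty : t < y := by
    refine lt_of_le_of_ne ht.2 fun e => ?_
    rcases hAB with ⟨-, e1⟩ | ⟨e1, -⟩
    · exact hDB (by rw [e1, e])
    · exact hDA (by rw [e1, e])
  obtain ⟨B₁, B₂, h12⟩ := h A hA
  have only : ∀ P ∈ Set.range c, ‖P - A‖ = r → P = B ∨ P = c t := by
    intro P hP hPr
    rcases h12 P hP hPr with h1 | h1 <;> rcases h12 B hB hAr with h2 | h2 <;>
      rcases h12 _ (Set.mem_range_self t) hDr with h3 | h3
    · exact Or.inl (h1.trans h2.symm)
    · exact Or.inl (h1.trans h2.symm)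
    · exact Or.inr (h1.trans h3.symm)
    · exact absurd (h3.trans h2.symm) hDB
    · exact absurd (h3.trans h2.symm) hDB
    · exact Or.inr (h1.trans h3.symm)
    · exact Or.inl (h1.trans h2.symm)
    · exact Or.inl (h1.trans h2.symm)
  -- no such point on the other arc
  have noz : ∀ s, y < s → s < x + 1 → ‖c s - A‖ ≠ r := by
    intro s h1 h2 h3
    rcases only _ (Set.mem_range_self s) h3 with h4 | h4
    · rcases hAB with ⟨-, e1⟩ | ⟨-, e1⟩
      · exact J y s h1 (by linarith) (by rw [h4, e1])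
      · exact J s (x + 1) h2 (by linarith) (by rw [h4, e1, hper])
    · exact J t s (by linarith) (by linarith) h4.symm
  have cn : Continuous fun s => ‖c s - A‖ := by fun_prop
  -- the end at `A`
  obtain ⟨s0, hs0', hs0A⟩ : ∃ s0, (s0 = y ∨ s0 = x + 1) ∧ c s0 = A := by
    rcases hAB with ⟨e1, -⟩ | ⟨e1, -⟩
    · exact ⟨x + 1, Or.inr rfl, by rw [e1, hper]⟩
    · exact ⟨y, Or.inl rfl, e1.symm⟩
  have hle : ∀ s ∈ Set.Icc y (x + 1), ‖c s - A‖ ≤ r := by
    have open_le : ∀ s, y < s → s < x + 1 → ‖c s - A‖ ≤ r := by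
      intro s h1 h2
      by_contra hcon
      push Not at hcon
      rcases hs0' with e | e
      · obtain ⟨s', ⟨h3, h4⟩, h5⟩ := intermediate_value_Ioo (a := y) (b := s) h1.le cn.continuousOn
          (show r ∈ Set.Ioo ‖c y - A‖ ‖c s - A‖ by
            rw [← e, hs0A, sub_self, norm_zero]; exact ⟨hr, hcon⟩)
        exact noz s' h3 (by linarith) h5
      · obtain ⟨s', ⟨h3, h4⟩, h5⟩ := intermediate_value_Ioo' (a := s) (b := x + 1) h2.le
          cn.continuousOn (show r ∈ Set.Ioo ‖c (x + 1) - A‖ ‖c s - A‖ by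
            rw [← e, hs0A, sub_self, norm_zero]; exact ⟨hr, hcon⟩)
        exact noz s' (by linarith) h4 h5
    intro s hs
    rcases hs.1.lt_or_eq with h1 | h1
    · rcases hs.2.lt_or_eq with h2 | h2
      · exact open_le s h1 h2
      · rw [h2, hper]
        rcases hAB with ⟨e1, -⟩ | ⟨-, e1⟩
        · rw [← e1, sub_self, norm_zero]; exact hr.le
        · rw [← e1]; exact hAr.le
    · rw [← h1]
      rcases hAB with ⟨-, e1⟩ | ⟨e1, -⟩
      · rw [← e1]; exact hAr.le
      · rw [← e1, sub_self, norm_zero]; exact hr.le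
  refine short_base hc hk he (a := y) (b := x + 1) (by linarith) hs0' fun s hs => ?_
  by_contra hsl
  rw [mem_slitPlane_iff] at hsl
  push Not at hsl
  obtain ⟨hre, him⟩ := hsl
  have hA0 : c s0 - O ≠ 0 := by rw [← he]; exact exp_ne_zero _
  set q : ℂ := (c s - O) / (c s0 - O) with hq
  have hq1 : q = ((q.re : ℝ) : ℂ) := Complex.ext (by simp) (by rw [him]; simp)
  have e1 : c s - A = ((q.re - 1 : ℝ) : ℂ) * (c s0 - O) := by
    have : c s - O = q * (c s0 - O) := by rw [hq]; field_simp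
    rw [hq1] at this
    push_cast
    rw [← hs0A]
    linear_combination this
  have e2 : c s - O = ((q.re : ℝ) : ℂ) * (c s0 - O) := by
    rw [← hq1, hq]; field_simp
  have n1 : ‖c s - A‖ = ‖c s - O‖ + ‖c s0 - O‖ := by
    rw [e1, e2, norm_mul, norm_mul, norm_real, norm_real, Real.norm_of_nonpos (by linarith),
      Real.norm_of_nonpos hre]
    ring
  have n2 := hle s hs
  have n3 := far s
  have n4 := far s0
  rw [n1] at n2
  nlinarith

open Complex in
theorem circle_dist {R : ℝ} (hR : 0 < R) (s t : ℝ) :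
    ‖circle R s - circle R t‖ = 2 * R * |Real.sin (Real.pi * (s - t))| := by
  unfold circle
  rw [← mul_sub, norm_mul, norm_real, Real.norm_of_nonneg hR.le]
  have e : exp (2 * Real.pi * s * I) - exp (2 * Real.pi * t * I) =
      exp (2 * Real.pi * t * I) * (exp (I * (2 * (Real.pi * (s - t)) : ℝ)) - 1) := by
    rw [mul_sub, mul_one, ← exp_add]
    congr 2
    push_cast; ring
  rw [e, norm_mul, norm_exp_I_mul_ofReal_sub_one,
    show (2 * Real.pi * t * I : ℂ) = ((2 * Real.pi * t : ℝ) : ℂ) * I by push_cast; ring,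
    norm_exp_ofReal_mul_I, one_mul, Real.norm_eq_abs, abs_mul, abs_two,
    mul_div_cancel_left₀ _ (two_ne_zero)]
  ring

theorem trig {α β : ℝ} (h1 : 0 ≤ α) (h2 : 0 ≤ β) (h3 : α + β ≤ Real.pi / 2) :
    Real.sin α + Real.sin β ≤ √2 * Real.sin (α + β) := by
  have hp := Real.pi_pos
  set h : ℝ := (α + β) / 2 with hh
  set g : ℝ := (α - β) / 2 with hg
  have e1 : Real.sin α + Real.sin β = 2 * Real.sin h * Real.cos g := by
    rw [show α = h + g by rw [hh, hg]; ring, show β = h - g by rw [hh, hg]; ring, Real.sin_add,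
      Real.sin_sub]; ring
  have e2 : Real.sin (α + β) = 2 * Real.sin h * Real.cos h := by
    rw [← Real.sin_two_mul]; congr 1; rw [hh]; ring
  have s0 : 0 ≤ Real.sin h := Real.sin_nonneg_of_nonneg_of_le_pi (by positivity) (by linarith)
  have c0 : √2 / 2 ≤ Real.cos h := by
    rw [← Real.cos_pi_div_four]
    exact Real.cos_le_cos_of_nonneg_of_le_pi (by positivity) (by linarith) (by linarith)
  have c1 := Real.cos_le_one g
  have hs2 : √2 * √2 = 2 := Real.mul_self_sqrt (by norm_num)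
  have hs0 : 0 < √2 := by positivity
  rw [e1, e2]
  have c2 : 1 ≤ √2 * Real.cos h := by nlinarith
  calc 2 * Real.sin h * Real.cos g ≤ 2 * Real.sin h * 1 := by gcongr
    _ ≤ 2 * Real.sin h * (√2 * Real.cos h) := by gcongr
    _ = _ := by ring

open Complex Pool.Agent Pool.Agent.H763R2 in
theorem circle_three {R : ℝ} (hR : 0 < R) : ThreePoint (circle R) √2 := by
  have hper : ∀ t, circle R (t + 1) = circle R t := fun t => by
    unfold circle
    rw [show (2 * Real.pi * ((t + 1 : ℝ) : ℂ) * I) = 2 * Real.pi * t * I + 2 * Real.pi * I by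
      push_cast; ring, exp_add, exp_two_pi_mul_I, mul_one]
  have hc : Continuous (circle R) := by unfold circle; fun_prop
  have L : An.Loop (circle R) := ⟨hc, hper⟩
  have key : ∀ x y, x < y → y ≤ x + 1 / 2 → ∀ t ∈ Set.Icc x y,
      ‖circle R t - circle R x‖ + ‖circle R t - circle R y‖ ≤
        √2 * ‖circle R y - circle R x‖ := by
    intro x y h1 h2 t ht
    have hp := Real.pi_pos
    rw [circle_dist hR, circle_dist hR, circle_dist hR]
    have a1 : 0 ≤ Real.pi * (t - x) := mul_nonneg hp.le (by linarith [ht.1])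
    have a2 : 0 ≤ Real.pi * (y - t) := mul_nonneg hp.le (by linarith [ht.2])
    have a3 : Real.pi * (t - x) + Real.pi * (y - t) ≤ Real.pi / 2 := by nlinarith
    have := trig a1 a2 a3
    rw [show Real.pi * (t - x) + Real.pi * (y - t) = Real.pi * (y - x) by ring] at this
    rw [show Real.pi * (t - y) = -(Real.pi * (y - t)) by ring, Real.sin_neg, abs_neg,
      abs_of_nonneg (Real.sin_nonneg_of_nonneg_of_le_pi a1 (by linarith)),
      abs_of_nonneg (Real.sin_nonneg_of_nonneg_of_le_pi a2 (by linarith)),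
      abs_of_nonneg (Real.sin_nonneg_of_nonneg_of_le_pi (x := Real.pi * (y - x)) (by nlinarith)
        (by nlinarith))]
    nlinarith
  rintro _ ⟨a, rfl⟩ _ ⟨b, rfl⟩ hne
  obtain ⟨j, h1, h2⟩ := T2h51.LS.shift_y L hne
  have hb : circle R (b - j) = circle R b := by
    have := L.per_int (b - j) j
    rw [sub_add_cancel] at this
    exact this.symm
  rcases le_total (b - j) (a + 1 / 2) with h | h
  · refine ⟨a, b - j, h1, h2, Or.inl ⟨rfl, hb.symm⟩, fun t ht => ?_⟩
    have := key a (b - j) h1 h t ht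
    rwa [hb] at this
  · refine ⟨b - j, a + 1, h2, by linarith, Or.inr ⟨(hper a).symm, hb.symm⟩, fun t ht => ?_⟩
    have := key (b - j) (a + 1) h2 (by linarith) t ht
    rw [hb, hper] at this
    rw [← norm_neg (circle R b - circle R a), neg_sub]
    linarith

open Complex in
theorem step6 {R : ℝ} (hR : 0 < R) : ThreePoint (circle R) √2 ∧ Encl (circle R) 0 ∧
    Metric.infDist 0 (Set.range (circle R)) = R ∧
    ∀ κ, κ = I ∨ κ = -I → ∀ A B, Sq (circle R) κ A B → ‖B - A‖ ≤ √2 * R := by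
  have hn : ∀ t, ‖circle R t‖ = R := fun t => by
    unfold circle
    rw [show (2 * Real.pi * t * I : ℂ) = ((2 * Real.pi * t : ℝ) : ℂ) * I by push_cast; ring,
      norm_mul, norm_exp_ofReal_mul_I, norm_real, Real.norm_of_nonneg hR.le, mul_one]
  have hR' : (R : ℂ) ≠ 0 := by exact_mod_cast hR.ne'
  refine ⟨circle_three hR, ?_, ?_, ?_⟩
  · refine ⟨1, ⟨fun t => Real.log R + 2 * Real.pi * t * I, by fun_prop, fun t => ?_, ?_⟩, odd_one⟩
    · unfold circle
      rw [exp_add, ← ofReal_exp, Real.exp_log hR, sub_zero]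
    · push_cast; ring
  · refine le_antisymm ?_ ?_
    · refine (Metric.infDist_le_dist_of_mem (Set.mem_range_self 0)).trans ?_
      rw [dist_zero_left, hn]
    · refine (Metric.le_infDist (Set.range_nonempty _)).2 ?_
      rintro _ ⟨t, rfl⟩
      rw [dist_zero_left, hn]
  · rintro κ hκ A B ⟨⟨a, ha⟩, -, ⟨b, hb⟩, -⟩
    have h1 : ‖(1 + κ) * (B - A)‖ ≤ R + R := by
      have e : (1 + κ) * (B - A) = (B + κ * (B - A)) - A := by ring
      rw [e, ← hb, ← ha]
      refine (norm_sub_le _ _).trans ?_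
      rw [hn, hn]
    have h2 : ‖(1 + κ) * (B - A)‖ = √2 * ‖B - A‖ := by
      rw [norm_mul]
      congr 1
      rw [norm_def, normSq_apply]
      rcases hκ with rfl | rfl <;> (simp; norm_num)
    rw [h2] at h1
    have hs0 : 0 < √2 := by positivity
    have hs2 : √2 * √2 = 2 := Real.mul_self_sqrt (by norm_num)
    nlinarith

/-- Let `C` be a Jordan curve, parametrised by `c : ℝ → ℂ` (continuous, of period `1`, injective on
`[0, 1)`), and let `O` be a point inside `C`. Let `κ = i` or `κ = -i`.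

1. Let `ρ (A, B)` be a positive continuous scale on the chords of `C` with
   `ρ (A, B) ≤ √2 min (|A - O|, |B - O|)`. Then `C` has an inscribed square with a side `A B` of
   length at least `ρ (A, B)`, or there are `A` and `B` on `C` with `|A - B| = ρ (A, B)` such that the
   vertex `D = A + κ(B - A)` of the square with the side `A B` is on the short one of the two arcs of
   `C` between `A` and `B`, and the fourth vertex `E = B + κ(B - A)` is inside or on `C` (for `s = 1`;
   outside or on `C` for `s = -1`).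
2. If any `A` and `B` on `C` with `|A - B| = ρ (A, B)` are joined by an arc of `C` on which
   `|P - A| + |P - B|` is at most `|A - O| + |B - O|` and less than `(1 + √2) |A - B|`, then `C` has
   an inscribed square with a side `A B` of length at least `ρ (A, B)`.
3. (A single scale.) Let `√2 ≤ K ≤ 1 + √2` and `0 < r ≤ (2 / K) dist (O, C)`. If any two points `A`
   and `B` of `C` with distance exactly `r` are joined by an arc of `C` on which
   `|P - A| + |P - B|` is at most `K r` and less than `(1 + √2) r`, then `C` has an inscribed square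
   of side at least `r`.
4. (Quasicircles.) Let `√2 ≤ K < 1 + √2`. If any two points `A` and `B` of `C` are joined by an arc
   of `C` on which `|P - A| + |P - B| ≤ K |A - B|`, then `C` has an inscribed square with a side
   `A B` of length at least `(2 / K) min (|A - O|, |B - O|)`, so at least `(2 / K) dist (O, C)`.
5. Let `0 < r ≤ √2 dist (O, C)`. If for each point `A` of `C` the circle of radius `r` around `A`
   meets `C` in at most two points, then `C` has an inscribed square of side at least `r`.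
6. The circle of radius `R` satisfies the assumption in (4) for `K = √2`, and it has no inscribed
   square of side more than `√2 R`: the bound in (4) is sharp for `K = √2`. -/
theorem result (c : ℝ → ℂ) (hc : Continuous c) (hper : ∀ t, c (t + 1) = c t)
    (hinj : Set.InjOn c (Set.Ico 0 1)) (O : ℂ) (hO : Encl c O) (κ : ℂ)
    (hκ : κ = Complex.I ∨ κ = -Complex.I) :
    (∀ ρ : ℂ × ℂ → ℝ, Gauge c O ρ → ∀ s : ℝ, s = 1 ∨ s = -1 →
      (∃ A B, Sq c κ A B ∧ ρ (A, B) ≤ ‖B - A‖) ∨
      ∃ x y A B, x < y ∧ y < x + 1 ∧ Short c O x y ∧ (A = c x ∧ B = c y ∨ A = c y ∧ B = c x) ∧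
        ‖B - A‖ = ρ (A, B) ∧ A + κ * (B - A) ∈ c '' Set.Icc x y ∧
        0 ≤ s * sdist c (B + κ * (B - A))) ∧
    (∀ ρ : ℂ × ℂ → ℝ, Gauge c O ρ →
      (∀ A ∈ Set.range c, ∀ B ∈ Set.range c, ‖B - A‖ = ρ (A, B) →
        Joined c A B fun P => ‖P - A‖ + ‖P - B‖ ≤ ‖A - O‖ + ‖B - O‖ ∧
          ‖P - A‖ + ‖P - B‖ < (1 + √2) * ‖B - A‖) →
      ∃ A B, Sq c κ A B ∧ ρ (A, B) ≤ ‖B - A‖) ∧
    (∀ K r : ℝ, √2 ≤ K → K ≤ 1 + √2 → 0 < r → r ≤ 2 / K * Metric.infDist O (Set.range c) →
      (∀ A ∈ Set.range c, ∀ B ∈ Set.range c, ‖B - A‖ = r →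
        Joined c A B fun P => ‖P - A‖ + ‖P - B‖ ≤ K * r ∧ ‖P - A‖ + ‖P - B‖ < (1 + √2) * r) →
      ∃ A B, Sq c κ A B ∧ r ≤ ‖B - A‖) ∧
    (∀ K : ℝ, √2 ≤ K → K < 1 + √2 → ThreePoint c K →
      ∃ A B, Sq c κ A B ∧ 2 / K * min ‖A - O‖ ‖B - O‖ ≤ ‖B - A‖ ∧
        2 / K * Metric.infDist O (Set.range c) ≤ ‖B - A‖) ∧
    (∀ r : ℝ, 0 < r → r ≤ √2 * Metric.infDist O (Set.range c) →
      (∀ A ∈ Set.range c, ∃ B₁ B₂ : ℂ, ∀ B ∈ Set.range c, ‖B - A‖ = r → B = B₁ ∨ B = B₂) →
      ∃ A B, Sq c κ A B ∧ r ≤ ‖B - A‖) ∧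
    (∀ R : ℝ, 0 < R → ThreePoint (circle R) √2 ∧ Encl (circle R) 0 ∧
      Metric.infDist 0 (Set.range (circle R)) = R ∧
      ∀ A B, Sq (circle R) κ A B → ‖B - A‖ ≤ √2 * R) := by
  have J := inj_of hper hinj
  have hs0 : 0 < √2 := by positivity
  have hs2 : √2 * √2 = 2 := Real.mul_self_sqrt (by norm_num)
  have hK2 : ∀ K : ℝ, √2 ≤ K → 2 / K ≤ √2 := fun K hK => by
    rw [div_le_iff₀ (by linarith)]; nlinarith
  have hA0 : ∀ x, c x - O ≠ 0 := by
    obtain ⟨n, ⟨k, hk, he, hkn⟩, hn⟩ := hO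
    intro x
    rw [← he]; exact Complex.exp_ne_zero _
  have hd : ∀ x, Metric.infDist O (Set.range c) ≤ ‖c x - O‖ := fun x => by
    rw [← dist_eq_norm, dist_comm]
    exact Metric.infDist_le_dist_of_mem (Set.mem_range_self x)
  refine ⟨fun ρ hρ s hs => step1 hc hper J hO hρ hκ hs, fun ρ hρ h => step2 hc hper J hO hρ h hκ,
    fun K r h1 h2 hr hrO h => ?_, fun K h1 h2 h => ?_, fun r hr hrO h =>
      step4 hc hper J hO hr hrO h hκ, fun R hR => ?_⟩
  · have hK : 0 < K := by linarith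
    have hrd : ∀ x, K * r ≤ 2 * ‖c x - O‖ := fun x => by
      have := dist_le (c := c) (by positivity) hrO x
      rw [div_mul_eq_mul_div, le_div_iff₀ hK] at this
      linarith
    have far : ∀ x, r ≤ √2 * ‖c x - O‖ := fun x => by
      have := hrd x
      nlinarith [norm_nonneg (c x - O)]
    refine step2 hc hper J hO (ρ := fun _ => r) ⟨continuous_const, fun _ _ => hr,
      fun x _ => far x, fun _ y => far y⟩ (fun A hA B hB hAB => ?_) hκ
    obtain ⟨x, y, g1, g2, g3, g4⟩ := h A hA B hB hAB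
    refine ⟨x, y, g1, g2, g3, fun t ht => ?_⟩
    obtain ⟨g5, g6⟩ := g4 t ht
    rw [hAB]
    refine ⟨g5.trans ?_, g6⟩
    obtain ⟨a, rfl⟩ := hA
    obtain ⟨b, rfl⟩ := hB
    linarith [hrd a, hrd b]
  · have hK : 0 < K := by linarith
    have hK0 : 0 < 2 / K := by positivity
    obtain ⟨A, B, hS, hle⟩ := step2 hc hper J hO (κ := κ)
      (ρ := fun p => 2 / K * min ‖p.1 - O‖ ‖p.2 - O‖) ⟨by fun_prop, fun x y => by
        have := norm_pos_iff.2 (hA0 x)
        have := norm_pos_iff.2 (hA0 y)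
        positivity, fun x y =>
          mul_le_mul (hK2 K h1) (min_le_left _ _) (by positivity) hs0.le, fun x y =>
          mul_le_mul (hK2 K h1) (min_le_right _ _) (by positivity) hs0.le⟩
      (fun A hA B hB hAB => by
        simp only at hAB
        have hA' : 0 < ‖A - O‖ := by
          obtain ⟨a, rfl⟩ := hA
          exact norm_pos_iff.2 (hA0 a)
        have hB' : 0 < ‖B - O‖ := by
          obtain ⟨b, rfl⟩ := hB
          exact norm_pos_iff.2 (hA0 b)
        have hpos : 0 < ‖B - A‖ := by rw [hAB]; positivity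
        have hne : A ≠ B := fun e => by
          rw [e, sub_self, norm_zero] at hpos
          exact lt_irrefl _ hpos
        obtain ⟨x, y, g1, g2, g3, g4⟩ := h A hA B hB hne
        refine ⟨x, y, g1, g2, g3, fun t ht => ?_⟩
        have g5 := g4 t ht
        have e : K * ‖B - A‖ = 2 * min ‖A - O‖ ‖B - O‖ := by
          rw [hAB]; field_simp
        refine ⟨?_, g5.trans_lt (by nlinarith)⟩
        have m1 := min_le_left ‖A - O‖ ‖B - O‖
        have m2 := min_le_right ‖A - O‖ ‖B - O‖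
        linarith) hκ
    simp only at hle
    refine ⟨A, B, hS, hle, le_trans ?_ hle⟩
    obtain ⟨⟨a, rfl⟩, ⟨b, rfl⟩, -, -⟩ := hS
    exact mul_le_mul_of_nonneg_left (le_min (hd a) (hd b)) hK0.le
  · obtain ⟨r1, r2, r3, r4⟩ := step6 hR
    exact ⟨r1, r2, r3, fun A B => r4 κ hκ A B⟩

end Pool.Agent.Results.MP_5a3ebe_gt.QuasicircleSquares
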