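import Pool.Agent.T2h56.PM.Tip2

/-! Inscribed squares in Jordan curves with tips. -/

set_option autoImplicit false

namespace Pool.Agent.Results.MP_5a3ebe_gt.TurningPoints

open Set Complex

/-- The closed curve `c` (of period `1`) winds `n` times around `z`: there is a continuous logarithm
`k` of `c - z` with `k 1 - k 0 = 2 π n i`. For a positively oriented Jordan curve the points `z` inside
the curve are those with `n = 1`. -/
def Winds (c : ℝ → ℂ) (z : ℂ) (n : ℤ) : Prop :=
  ∃ k : ℝ → ℂ, Continuous k ∧ (∀ t, exp (k t) = c t - z) ∧ k 1 - k 0 = n * (2 * Real.pi * I)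

/-- The curve contains the four vertices of a square. -/
def HasSquare (c : ℝ → ℂ) : Prop :=
  ∃ z w : ℂ, w ≠ 0 ∧ z ∈ range c ∧ z + w ∈ range c ∧ z + w + I * w ∈ range c ∧ z + I * w ∈ range c

/-- Locally monotone at `t` (Stromquist): near `t` the scalar product of the curve with a fixed vector
is strictly increasing. -/
def LocallyMonotone (c : ℝ → ℂ) (t : ℝ) : Prop := ∃ ρ > 0, ∃ w : ℂ, ∀ x y : ℝ,
  |x - t| < ρ → |y - t| < ρ → x < y → 0 < (w * (c y - c x)).re

/-- Tip: the real part of `g` is strictly increasing on `[p, t]` and strictly decreasing on `[t, q]`.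
So the arcs over `[p, t]` and `[t, q]` are two graphs to the left of their common end. -/
def Turn (g : ℝ → ℂ) (p t q : ℝ) : Prop := p < t ∧ t < q ∧
  StrictMonoOn (fun τ => (g τ).re) (Icc p t) ∧ StrictAntiOn (fun τ => (g τ).re) (Icc t q)

/-- The curve turns to the right: the second graph is below the first one. (For a positively oriented
curve the tip points into the interior.) -/
def RightTurn (g : ℝ → ℂ) (p t q : ℝ) : Prop := Turn g p t q ∧
  ∀ τ ∈ Ico p t, ∀ τ' ∈ Ioc t q, (g τ).re = (g τ').re → (g τ').im < (g τ).im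

/-- The curve turns to the left: the second graph is above the first one. (For a positively oriented
curve the tip points into the exterior.) -/
def LeftTurn (g : ℝ → ℂ) (p t q : ℝ) : Prop := Turn g p t q ∧
  ∀ τ ∈ Ico p t, ∀ τ' ∈ Ioc t q, (g τ).re = (g τ').re → (g τ).im < (g τ').im

/-- `f` has a Lipschitz continuous derivative on `[x₀, X]` (for instance, it is twice continuously
differentiable, or affine, there). -/
def C11 (f : ℝ → ℝ) (x₀ X : ℝ) : Prop := ∃ (f' : ℝ → ℝ) (C : ℝ),
  (∀ x ∈ Icc x₀ X, HasDerivWithinAt f (f' x) (Icc x₀ X) x) ∧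
  ∀ x ∈ Icc x₀ X, ∀ y ∈ Icc x₀ X, |f' y - f' x| ≤ C * |y - x|

/-- All slopes of chords of `f` are in an interval `[k - l, k + l]` with `l² < 1 + k²`, and
`(g x - f x) / (X - x)` has values not less than `2 l min (1, |k| + l)` arbitrarily near `X`. (For
instance, `f` is continuously differentiable on `[x₀, X]` with `x₀` near `X`, and
`(g x - f x) / (X - x)` does not tend to `0` for `x → X`.) -/
def LipSide (f g : ℝ → ℝ) (x₀ X : ℝ) : Prop := ∃ k l : ℝ, 0 ≤ l ∧ l ^ 2 < 1 + k ^ 2 ∧
  (∀ x ∈ Icc x₀ X, ∀ y ∈ Icc x₀ X, |f y - f x - k * (y - x)| ≤ l * |y - x|) ∧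
  ∀ ε > 0, ∃ x ∈ Ioo (X - ε) X, 2 * l * min 1 (|k| + l) * (X - x) ≤ g x - f x

/-- For some number `l` the function `f x + l x` increases on `[x₀, X]`, the function `g x + l x` has
values not less than at `X` arbitrarily near `X`, and, in the case `l ≥ 0`, the function `x - l f x`
has somewhere a smaller value than at `X`. -/
def MonoSide (f g : ℝ → ℝ) (x₀ X : ℝ) : Prop := ∃ l : ℝ,
  MonotoneOn (fun x => f x + l * x) (Icc x₀ X) ∧
  (∀ ε > 0, ∃ x ∈ Ioo (X - ε) X, g X + l * X ≤ g x + l * x) ∧
  (l < 0 ∨ ∃ x ∈ Ico x₀ X, x - l * f x < X - l * f X)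

/-- On `[x₀, X]` the function `f` is at least `f x₀`, and `g` is at most `g x₀`. -/
def Frame (f g : ℝ → ℝ) (x₀ X : ℝ) : Prop := ∀ x ∈ Icc x₀ X, f x₀ ≤ f x ∧ g x ≤ g x₀

/-- The condition on two graphs `f < g` over `[x₀, X)` that meet at `X`. (The passage from `f`, `g` to
`-g`, `-f` is the reflection in the `x`-axis.) -/
def GoodEnd (f g : ℝ → ℝ) (x₀ X : ℝ) : Prop :=
  (C11 f x₀ X ∨ C11 g x₀ X) ∨
    (LipSide f g x₀ X ∨ LipSide (fun x => -g x) (fun x => -f x) x₀ X) ∨
    (MonoSide f g x₀ X ∨ MonoSide (fun x => -g x) (fun x => -f x) x₀ X) ∨ Frame f g x₀ X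

/-- Near `t` no chord `(P, Q)` of the curve has both points `P + i (Q - P)`, `Q + i (Q - P)` inside. -/
def NoChords (c : ℝ → ℂ) (t : ℝ) : Prop := ∃ ε > 0, ∀ x y : ℝ, |x - t| < ε → |y - t| < ε →
  ¬ (Winds c (c x + I * (c y - c x)) 1 ∧ Winds c (c y + I * (c y - c x)) 1)

/-- The admitted points of a curve: (a) locally monotone, (b) a tip pointing inwards, (c) a tip
pointing outwards whose two sides are, in suitable coordinates, the graphs of functions `f < g` with
`GoodEnd f g`, (d) a point as in `NoChords`. -/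
def Good (c : ℝ → ℂ) (t : ℝ) : Prop :=
  LocallyMonotone c t ∨
  (∃ (w : ℂ) (p q : ℝ), RightTurn (fun τ => w * c τ) p t q) ∨
  (∃ (w : ℂ) (p q : ℝ) (f g : ℝ → ℝ), q < p + 1 ∧ LeftTurn (fun τ => w * c τ) p t q ∧
    (w * c p).re = (w * c q).re ∧
    (∀ τ ∈ Icc p t, (w * c τ).im = f (w * c τ).re) ∧
    (∀ τ ∈ Icc t q, (w * c τ).im = g (w * c τ).re) ∧
    GoodEnd f g (w * c p).re (w * c t).re) ∨
  NoChords c t

theorem tn_of {g : ℝ → ℂ} {p t q : ℝ} (h : Turn g p t q) : T2h56.PM.Tn g p t q where
  h1 := h.1.le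
  h2 := h.2.1.le
  inc _ hτ _ hτ' hh := h.2.2.1 hτ hτ' hh
  dec _ hτ _ hτ' hh := h.2.2.2 hτ hτ' hh

/-- Let `c` (continuous, of period `1`, injective on `[0, 1)`) parametrise a positively oriented
Jordan curve. Suppose that for each parameter `t` one of the following holds:
(a) the curve is locally monotone at `t`;
(b) `t` is a turning point to the right (for some direction `w`), a tip that points inwards;
(c) `t` is a turning point to the left (for some direction `w`), a tip that points outwards, whose two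
sides are the graphs of functions `f < g` with `GoodEnd f g`; that is, one of `f`, `g` has a Lipschitz
continuous derivative near the tip up to the tip, or one of them is continuously differentiable (or
has a small Lipschitz constant) up to the tip and the tip is not a cusp, or one of them is monotone in
a second direction, or there is a frame; the other side can be arbitrarily wild;
(d) near `t` no chord `(P, Q)` of the curve has both `P + i (Q - P)` and `Q + i (Q - P)` inside.
Then the curve contains the four vertices of a square. -/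
theorem result (c : ℝ → ℂ) (hc : Continuous c) (hper : ∀ t, c (t + 1) = c t)
    (hinj : InjOn c (Ico 0 1)) (hor : ∃ z, Winds c z 1) (H : ∀ t, Good c t) : HasSquare c := by
  have L : H763R2.An.Loop c := ⟨hc, hper⟩
  have J : H763R2.An.Inj c := H765R3.Peg.inj_of L hinj
  have ho : ∃ z, H763R2.An.IsWc c z 1 := hor
  by_contra hno
  refine T2h56.PM.core L J (T2h56.PM.orient L J ho) (fun t _ => ?_) hno
  rcases H t with ⟨ρ, hρ, w, h⟩ | ⟨w, p, q, h1, h2⟩ |
    ⟨w, p, q, f, g, hpq, ⟨h1, h2⟩, he, hf, hg, h3⟩ | ⟨ε, hε, h⟩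
  · have hw : w ≠ 0 := by
      rintro rfl
      have := h (t - ρ / 2) t (by rw [abs_lt]; constructor <;> linarith)
        (by rw [abs_lt]; constructor <;> linarith) (by linarith)
      simp at this
    have := T2h56.PM.ok_mono (T2h56.PM.Loop.rot L w) (t := t) (half_pos hρ)
      (Or.inl fun τ hτ τ' hτ' hh => by
        have := h τ τ' (by rw [abs_lt]; constructor <;> linarith [hτ.1, hτ.2])
          (by rw [abs_lt]; constructor <;> linarith [hτ'.1, hτ'.2]) hh
        rw [mul_sub, sub_re] at this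
        linarith)
    exact ⟨T2h56.PM.SOK.rot L hw this.1, T2h56.PM.EOK.rot L hw this.2⟩
  · have hw : w ≠ 0 := by
      rintro rfl
      have := h1.2.2.1 ⟨le_rfl, h1.1.le⟩ ⟨h1.1.le, le_rfl⟩ h1.1
      simp at this
    obtain ⟨ρ, hρ⟩ : ∃ ρ, ρ = min (t - p) (q - t) := ⟨_, rfl⟩
    have r0 : 0 < ρ := by rw [hρ]; exact lt_min (sub_pos.2 h1.1) (sub_pos.2 h1.2.1)
    have r1 : ρ ≤ t - p := by rw [hρ]; exact min_le_left _ _
    have r2 : ρ ≤ q - t := by rw [hρ]; exact min_le_right _ _
    have hR : T2h56.PM.TR (fun τ => w * c τ) p t q := h2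
    have := T2h56.PM.ok_right (T2h56.PM.Loop.rot L w) r0
      ((tn_of h1).sub (by linarith) (by linarith) (by linarith) (by linarith))
      (hR.sub (by linarith) (by linarith))
    exact ⟨T2h56.PM.SOK.rot L hw this.1, T2h56.PM.EOK.rot L hw this.2⟩
  · have hw : w ≠ 0 := by
      rintro rfl
      have := h1.2.2.1 ⟨le_rfl, h1.1.le⟩ ⟨h1.1.le, le_rfl⟩ h1.1
      simp at this
    have S : T2h56.PM.Sides (fun τ => w * c τ) p t q f g :=
      ⟨h1.1, h1.2.1, hpq, tn_of h1, h2, he, hf, hg⟩
    obtain ⟨p', q', hB⟩ := S.tip (T2h56.PM.Loop.rot L w) h3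
    have := T2h56.PM.ok_left (T2h56.PM.Loop.rot L w) hB
    exact ⟨T2h56.PM.SOK.rot L hw this.1, T2h56.PM.EOK.rot L hw this.2⟩
  · exact T2h56.PM.ok_block L hε fun x y hx hy hin => h x y hx hy ⟨hin.nv, hin.nw⟩

end Pool.Agent.Results.MP_5a3ebe_gt.TurningPoints
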